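import Pool.Agent.R537.LR.Stm
import Pool.Agent.R537.HA.Mem

/-!
# Low-rank approximation belongs to `∃ℝ` for `p = 1` (helper209)
-/

set_option autoImplicit false

namespace Pool.Agent.NPC.R209LR

open Pool.Agent.NPC Pool.Agent.NPC.ER Pool.Agent.NPC.H670R2 Matrix
open Pool.Agent.NPC.R537HA (pt dotT ext0 sum_map_range' eval_dotT matV eval_dotT' asgOf asgOf_eq
  poly_pt poly_dotT)
open Pool.Agent.NPC.R537LR (RMat LRA1 dist1 S_MEM1)

/-- The number of the columns. -/
def wd (M : RMat) : ℕ := (M.getD 0 []).length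

/-- The instance is a matrix. -/
def okB (I : RMat × ℕ × ℚ) : Bool := I.1.all fun r => decide (r.length = wd I.1)

/-- The entries of the given matrix. -/
def aF (M : RMat) (w m n : ℕ) : List Fm :=
  (List.range m).flatMap fun i => (List.range n).map fun j => eqRat (pt w 3 i j) (M.entry i j)

/-- Bounds for the absolute values. -/
def bF (w m n k : ℕ) : List Fm :=
  (List.range m).flatMap fun i => (List.range n).map fun j =>
    Fm.and (Fm.le (Tm.add (pt w 3 i j) (Tm.neg (dotT w 0 1 k i j))) (pt w 2 i j))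
      (Fm.le (Tm.add (dotT w 0 1 k i j) (Tm.neg (pt w 3 i j))) (pt w 2 i j))

/-- The sum of the bounds. -/
def sT (w m n : ℕ) : Tm :=
  sumTm ((List.range m).map fun i => sumTm ((List.range n).map fun j => pt w 2 i j))

/-- The formula of an instance. -/
def fL (I : RMat × ℕ × ℚ) : Fm :=
  bif okB I then conj (aF I.1 (I.1.length + wd I.1 + 1) I.1.length (wd I.1) ++
    (bF (I.1.length + wd I.1 + 1) I.1.length (wd I.1) (min I.2.1 I.1.length) ++
    [Fm.lt (sT (I.1.length + wd I.1 + 1) I.1.length (wd I.1))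
      (pt (I.1.length + wd I.1 + 1) 4 0 0),
     Fm.lt Tm.zero (pt (I.1.length + wd I.1 + 1) 4 0 0),
     eqRat (pt (I.1.length + wd I.1 + 1) 4 0 0) I.2.2]))
  else H670R2.ff

theorem okB_iff (I : RMat × ℕ × ℚ) : okB I = true ↔ I.1.IsMat I.1.length (wd I.1) := by
  unfold okB R537LR.RMat.IsMat
  simp only [List.all_eq_true, decide_eq_true_eq, true_and]

theorem isMat_wd {M : RMat} {m n : ℕ} (h : M.IsMat m n) (hm : m ≠ 0) : wd M = n := by
  unfold wd
  refine h.2 _ ?_
  rw [List.getD_eq_getElem _ _ (by rw [h.1]; omega)]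
  exact List.getElem_mem _

theorem eval_pt (v : ℕ → ℝ) (w o i j : ℕ) : (pt w o i j).eval v = v (8 * (i * w + j) + o) := rfl

theorem eval_sT (v : ℕ → ℝ) (w m n : ℕ) : (sT w m n).eval v =
    ∑ i ∈ Finset.range m, ∑ j ∈ Finset.range n, v (8 * (i * w + j) + 2) := by
  unfold sT
  rw [eval_sumTm, List.map_map, ← sum_map_range']
  congr 1
  refine List.map_congr_left fun i _ => ?_
  rw [Function.comp_apply, eval_sumTm, List.map_map, ← sum_map_range']
  rfl

theorem holds_aF {v : ℕ → ℝ} {M : RMat} {w m n : ℕ} : (∀ φ ∈ aF M w m n, φ.Holds v) ↔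
    ∀ i < m, ∀ j < n, v (8 * (i * w + j) + 3) = ((M.entry i j : ℚ) : ℝ) := by
  unfold aF
  simp only [List.forall_mem_flatMap, List.forall_mem_map, List.mem_range, holds_eqRat, eval_pt]

theorem holds_bF {v : ℕ → ℝ} {w m n k : ℕ} : (∀ φ ∈ bF w m n k, φ.Holds v) ↔
    ∀ i < m, ∀ j < n, v (8 * (i * w + j) + 3) - (dotT w 0 1 k i j).eval v ≤
        v (8 * (i * w + j) + 2) ∧
      (dotT w 0 1 k i j).eval v - v (8 * (i * w + j) + 3) ≤ v (8 * (i * w + j) + 2) := by
  unfold bF
  simp only [List.forall_mem_flatMap, List.forall_mem_map, List.mem_range, Fm.Holds, Tm.eval,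
    eval_pt, sub_eq_add_neg]

/-- Products of matrices extended by zero. -/
theorem sum_ext0 {m r n k : ℕ} (U : Matrix (Fin m) (Fin r) ℝ) (V : Matrix (Fin r) (Fin n) ℝ)
    (hk : r ≤ k) (i : Fin m) (j : Fin n) :
    ∑ t ∈ Finset.range k, ext0 U i t * ext0 V t j = (U * V) i j := by
  rw [Matrix.mul_apply]
  have h1 : ∑ t ∈ Finset.range k, ext0 U i t * ext0 V t j =
      ∑ t ∈ Finset.range r, ext0 U i t * ext0 V t j := by
    refine (Finset.sum_subset (Finset.range_subset_range.2 hk) fun t _ ht => ?_).symm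
    rw [Finset.mem_range] at ht
    unfold ext0
    rw [dif_neg (fun h => ht h.2), zero_mul]
  rw [h1, ← Fin.sum_univ_eq_sum_range (fun t => ext0 U i t * ext0 V t j)]
  refine Finset.sum_congr rfl fun t _ => ?_
  unfold ext0
  rw [dif_pos ⟨i.2, t.2⟩, dif_pos ⟨t.2, j.2⟩]

theorem l_iff_etr (I : RMat × ℕ × ℚ) : LRA1 I ↔ ETR (fL I) := by
  obtain ⟨M, k, ε⟩ := I
  unfold fL
  by_cases hs : okB (M, k, ε) = true
  · rw [hs, cond_true]
    have h1 : M.IsMat M.length (wd M) := (okB_iff _).1 hs
    set m := M.length with hm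
    set n := wd M with hn
    set w := m + n + 1 with hw
    set k' := min k m with hk'
    unfold ETR
    have hF : ∀ v : ℕ → ℝ, (conj (aF M w m n ++ (bF w m n k' ++
        [Fm.lt (sT w m n) (pt w 4 0 0), Fm.lt Tm.zero (pt w 4 0 0), eqRat (pt w 4 0 0) ε]))).Holds v
        ↔ (∀ i < m, ∀ j < n, v (8 * (i * w + j) + 3) = ((M.entry i j : ℚ) : ℝ)) ∧
          (∀ i < m, ∀ j < n, v (8 * (i * w + j) + 3) - (dotT w 0 1 k' i j).eval v ≤
            v (8 * (i * w + j) + 2) ∧
          (dotT w 0 1 k' i j).eval v - v (8 * (i * w + j) + 3) ≤ v (8 * (i * w + j) + 2)) ∧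
          ∑ i ∈ Finset.range m, ∑ j ∈ Finset.range n, v (8 * (i * w + j) + 2) <
            v (8 * (0 * w + 0) + 4) ∧ 0 < v (8 * (0 * w + 0) + 4) ∧
          v (8 * (0 * w + 0) + 4) = ε := by
      intro v
      rw [holds_conj, List.forall_mem_append, List.forall_mem_append, holds_aF, holds_bF,
        List.forall_mem_cons, List.forall_mem_cons, List.forall_mem_singleton, holds_eqRat,
        ← eval_sT]
      rfl
    refine (?_ : _ ↔ ∃ v : ℕ → ℝ, _).trans (exists_congr fun v => (hF v).symm)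
    constructor
    · rintro ⟨m', n', hM, hε, B, hB, hAB⟩
      obtain rfl : m' = m := hM.1.symm
      simp only at hB hAB hM hε
      have key : ∃ B' : Matrix (Fin m) (Fin n) ℝ, B'.rank ≤ k ∧
          dist1 (M.real m n) B' < ε := by
        by_cases hm0 : m = 0
        · refine ⟨0, ?_, ?_⟩
          · rw [Matrix.rank_zero]
            exact Nat.zero_le _
          · unfold dist1
            have : IsEmpty (Fin m) := by
              rw [hm0]
              infer_instance
            rw [Finset.univ_eq_empty, Finset.sum_empty]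
            exact_mod_cast hε
        · obtain rfl : n = n' := isMat_wd hM hm0
          exact ⟨B, hB, hAB⟩
      obtain ⟨B', hB', hAB'⟩ := key
      obtain ⟨U, V, hUV⟩ := R537.HA.exists_mul_of_rank B' rfl
      have hr : B'.rank ≤ k' := le_min hB' (Matrix.rank_le_height B')
      have hrm : B'.rank ≤ m := Matrix.rank_le_height B'
      let F : ℕ → ℕ → ℕ → ℝ := fun o => if o = 0 then ext0 U else if o = 1 then ext0 V
        else if o = 2 then ext0 (Matrix.of fun i j => |M.real m n i j - B' i j|)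
        else if o = 3 then ext0 (M.real m n) else fun _ _ => (ε : ℝ)
      have hkw : k' < w := by
        have : k' ≤ m := min_le_right _ _
        omega
      have hd : ∀ (i : Fin m) (j : Fin n), (dotT w 0 1 k' i j).eval (asgOf w F) = B' i j := by
        intro i j
        rw [eval_dotT]
        have h2 : ∀ t ∈ Finset.range k', asgOf w F (8 * ((i : ℕ) * w + t) + 0) *
            asgOf w F (8 * (t * w + (j : ℕ)) + 1) = ext0 U i t * ext0 V t j := by
          intro t ht
          rw [Finset.mem_range] at ht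
          rw [asgOf_eq F (by norm_num) (by omega), asgOf_eq F (by norm_num) (by omega)]
          rfl
        rw [Finset.sum_congr rfl h2, sum_ext0 U V hr, ← hUV]
      have h2 : ∀ (i : Fin m) (j : Fin n), asgOf w F (8 * ((i : ℕ) * w + (j : ℕ)) + 2) =
          |M.real m n i j - B' i j| := by
        intro i j
        rw [asgOf_eq F (by norm_num) (by omega)]
        change ext0 _ (i : ℕ) (j : ℕ) = _
        unfold ext0
        rw [dif_pos ⟨i.2, j.2⟩]
        rfl
      have h3 : ∀ (i : Fin m) (j : Fin n), asgOf w F (8 * ((i : ℕ) * w + (j : ℕ)) + 3) =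
          M.real m n i j := by
        intro i j
        rw [asgOf_eq F (by norm_num) (by omega)]
        change ext0 _ (i : ℕ) (j : ℕ) = _
        unfold ext0
        rw [dif_pos ⟨i.2, j.2⟩]
      have h4 : asgOf w F (8 * (0 * w + 0) + 4) = ε := by
        rw [asgOf_eq F (by norm_num) (by omega)]
        rfl
      refine ⟨asgOf w F, fun i hi j hj => ?_, fun i hi j hj => ?_, ?_, ?_, ?_⟩
      · exact h3 ⟨i, hi⟩ ⟨j, hj⟩
      · have e1 := hd ⟨i, hi⟩ ⟨j, hj⟩
        have e2 := h2 ⟨i, hi⟩ ⟨j, hj⟩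
        have e3 := h3 ⟨i, hi⟩ ⟨j, hj⟩
        simp only at e1 e2 e3
        rw [e1, e2, e3]
        refine ⟨le_abs_self _, ?_⟩
        rw [abs_sub_comm]
        exact le_abs_self _
      · rw [h4]
        have e1 : ∑ i ∈ Finset.range m, ∑ j ∈ Finset.range n,
            asgOf w F (8 * (i * w + j) + 2) = dist1 (M.real m n) B' := by
          unfold dist1
          rw [← Fin.sum_univ_eq_sum_range
            (fun i => ∑ j ∈ Finset.range n, asgOf w F (8 * (i * w + j) + 2))]
          refine Finset.sum_congr rfl fun i _ => ?_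
          rw [← Fin.sum_univ_eq_sum_range (fun j => asgOf w F (8 * ((i : ℕ) * w + j) + 2))]
          exact Finset.sum_congr rfl fun j _ => h2 i j
        rw [e1]
        exact hAB'
      · rw [h4]
        exact_mod_cast hε
      · exact h4
    · rintro ⟨v, h2, h3, h4, h5, h6⟩
      rw [h6] at h4 h5
      refine ⟨m, n, h1, by exact_mod_cast h5, matV v w 0 m k' * matV v w 1 k' n, ?_, ?_⟩
      · exact (R537.HA.rank_mul_le_mid _ _).trans (min_le_left _ _)
      · refine lt_of_le_of_lt ?_ h4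
        unfold dist1
        rw [← Fin.sum_univ_eq_sum_range
          (fun i => ∑ j ∈ Finset.range n, v (8 * (i * w + j) + 2))]
        refine Finset.sum_le_sum fun i _ => ?_
        rw [← Fin.sum_univ_eq_sum_range (fun j => v (8 * ((i : ℕ) * w + j) + 2))]
        refine Finset.sum_le_sum fun j _ => ?_
        have e1 := h2 i i.2 j j.2
        have e2 := h3 i i.2 j j.2
        rw [eval_dotT', e1] at e2
        rw [abs_le]
        have e3 : M.real m n i j = ((M.entry i j : ℚ) : ℝ) := rfl
        rw [e3]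
        constructor
        · linarith [e2.2]
        · exact e2.1
  · have h' : okB (M, k, ε) = false := by simpa using hs
    rw [h', cond_false]
    constructor
    · rintro ⟨m, n, hM, -⟩
      exfalso
      apply hs
      rw [okB_iff]
      simp only at hM ⊢
      have hm : M.length = m := hM.1
      by_cases hm0 : m = 0
      · refine ⟨rfl, fun r hr => ?_⟩
        have : M = [] := List.length_eq_zero_iff.1 (by omega)
        rw [this] at hr
        simp at hr
      · rw [hm, isMat_wd hM hm0]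
        exact hM
    · intro h2
      exact absurd h2 not_etr_ff

section

variable {α : Type} [TEnc α] {w i j q p m n k l : α → ℕ} {M : α → RMat}

theorem poly_entry' (hM : Poly M) (hi : Poly i) (hj : Poly j) :
    Poly (fun a => (M a).entry (i a) (j a)) :=
  Poly.getD (Poly.getD hM hi (Poly.const [])) hj (Poly.const (0 : ℚ))

theorem poly_aF (hM : Poly M) (hw : Poly w) (hm : UPoly m) (hn : UPoly n) :
    Poly (fun a => aF (M a) (w a) (m a) (n a)) := by
  refine Poly.flatMap (F := fun a i => (List.range (n a)).map fun j =>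
    eqRat (pt (w a) 3 i j) ((M a).entry i j)) hm.range ?_
  refine Poly.map (F := fun (r : α × ℕ) j =>
    eqRat (pt (w r.1) 3 r.2 j) ((M r.1).entry r.2 j)) (hn.range.comp (Poly.fst Poly.id)) ?_
  have q1 : Poly (fun q : (α × ℕ) × ℕ => q.1.1) := Poly.fst (Poly.fst Poly.id)
  have q2 : Poly (fun q : (α × ℕ) × ℕ => q.1.2) := Poly.snd (Poly.fst Poly.id)
  have q3 : Poly (fun q : (α × ℕ) × ℕ => q.2) := Poly.snd Poly.id
  exact poly_eqRat (poly_pt 3 (hw.comp q1) q2 q3) (poly_entry' (hM.comp q1) q2 q3)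

theorem poly_bF (hw : Poly w) (hm : UPoly m) (hn : UPoly n) (hk : UPoly k) :
    Poly (fun a => bF (w a) (m a) (n a) (k a)) := by
  refine Poly.flatMap (F := fun a i => (List.range (n a)).map fun j =>
    Fm.and (Fm.le (Tm.add (pt (w a) 3 i j) (Tm.neg (dotT (w a) 0 1 (k a) i j))) (pt (w a) 2 i j))
      (Fm.le (Tm.add (dotT (w a) 0 1 (k a) i j) (Tm.neg (pt (w a) 3 i j))) (pt (w a) 2 i j)))
    hm.range ?_
  refine Poly.map (F := fun (r : α × ℕ) j =>
    Fm.and (Fm.le (Tm.add (pt (w r.1) 3 r.2 j) (Tm.neg (dotT (w r.1) 0 1 (k r.1) r.2 j)))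
        (pt (w r.1) 2 r.2 j))
      (Fm.le (Tm.add (dotT (w r.1) 0 1 (k r.1) r.2 j) (Tm.neg (pt (w r.1) 3 r.2 j)))
        (pt (w r.1) 2 r.2 j))) (hn.range.comp (Poly.fst Poly.id)) ?_
  have q1 : Poly (fun q : (α × ℕ) × ℕ => q.1.1) := Poly.fst (Poly.fst Poly.id)
  have q2 : Poly (fun q : (α × ℕ) × ℕ => q.1.2) := Poly.snd (Poly.fst Poly.id)
  have q3 : Poly (fun q : (α × ℕ) × ℕ => q.2) := Poly.snd Poly.id
  have p2 := poly_pt 2 (hw.comp q1) q2 q3
  have p3 := poly_pt 3 (hw.comp q1) q2 q3
  have pd := poly_dotT 0 1 (hw.comp q1) (hk.comp q1) q2 q3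
  exact poly_and (poly_le (poly_tadd p3 (poly_tneg pd)) p2)
    (poly_le (poly_tadd pd (poly_tneg p3)) p2)

theorem poly_sT (hw : Poly w) (hm : UPoly m) (hn : UPoly n) :
    Poly (fun a => sT (w a) (m a) (n a)) := by
  refine poly_sumTm (Poly.map (F := fun a i =>
    sumTm ((List.range (n a)).map fun j => pt (w a) 2 i j)) hm.range ?_)
  refine poly_sumTm (Poly.map (F := fun (r : α × ℕ) j => pt (w r.1) 2 r.2 j)
    (hn.range.comp (Poly.fst Poly.id)) ?_)
  have q1 : Poly (fun q : (α × ℕ) × ℕ => q.1.1) := Poly.fst (Poly.fst Poly.id)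
  have q2 : Poly (fun q : (α × ℕ) × ℕ => q.1.2) := Poly.snd (Poly.fst Poly.id)
  have q3 : Poly (fun q : (α × ℕ) × ℕ => q.2) := Poly.snd Poly.id
  exact poly_pt 2 (hw.comp q1) q2 q3

theorem upoly_wd (hM : Poly M) : UPoly (fun a => wd (M a)) :=
  UPoly.length (Poly.getD hM (Poly.const 0) (Poly.const []))

end

theorem poly_okB : Poly okB := by
  have h1 : Poly (fun I : RMat × ℕ × ℚ => I.1) := Poly.fst Poly.id
  exact Poly.all (p := fun (I : RMat × ℕ × ℚ) (r : List ℚ) => decide (r.length = wd I.1)) h1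
    (Poly.decide_eq (Poly.length (Poly.snd Poly.id)) ((upoly_wd h1).toPoly.comp
      (Poly.fst Poly.id)))

theorem poly_fL : Poly fL := by
  have h1 : Poly (fun I : RMat × ℕ × ℚ => I.1) := Poly.fst Poly.id
  have h2 : Poly (fun I : RMat × ℕ × ℚ => I.2.1) := Poly.fst (Poly.snd Poly.id)
  have h3 : Poly (fun I : RMat × ℕ × ℚ => I.2.2) := Poly.snd (Poly.snd Poly.id)
  have hm : UPoly (fun I : RMat × ℕ × ℚ => I.1.length) := UPoly.length h1
  have hn : UPoly (fun I : RMat × ℕ × ℚ => wd I.1) := upoly_wd h1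
  have hw : Poly (fun I : RMat × ℕ × ℚ => I.1.length + wd I.1 + 1) :=
    Poly.add (Poly.add hm.toPoly hn.toPoly) (Poly.const 1)
  have hk : UPoly (fun I : RMat × ℕ × ℚ => min I.2.1 I.1.length) :=
    UPoly.of_le (Poly.min h2 hm.toPoly) hm fun a => min_le_right _ _
  have he : Poly (fun I : RMat × ℕ × ℚ => pt (I.1.length + wd I.1 + 1) 4 0 0) :=
    poly_pt 4 hw (Poly.const 0) (Poly.const 0)
  exact Poly.cond poly_okB (poly_conj (Poly.append (poly_aF h1 hw hm hn)
    (Poly.append (poly_bF hw hm hn hk) (Poly.cons (poly_lt (poly_sT hw hm hn) he)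
      (Poly.cons (poly_lt (Poly.const _) he) (Poly.cons (poly_eqRat he h3)
        (Poly.const []))))))) (Poly.const _)

/-- Membership of `LRA₁`. -/
theorem t_MEM1 : S_MEM1 := ER.InER.of_poly poly_fL l_iff_etr

end Pool.Agent.NPC.R209LR
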